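import Pool.Agent.helper1.SOL.SpecN

/-!
# Project sol (MP_cad530_co): row F4E (empty edges in the graphs of type F4)

`F4E_iff`: for `k = 1, 2, 3` the set `sosSums RF4 k` consists of the vectors of the lattice `all entries
of the same parity` of norm `8 k` or `8 k - 4`.
-/

set_option autoImplicit false

namespace Pool.Agent.SOL

open Pool.Agent.helper54.SOG Finset

open scoped BigOperators

/-- the norm -/
def F4E_n (a b c d : ℤ) : ℤ := a * a + b * b + c * c + d * d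

/-- the vertices, as a Boolean predicate -/
def F4E_P (k a b c d : ℤ) : Bool :=
  (F4E_n a b c d == 8 * k || F4E_n a b c d == 8 * k - 4) &&
    (a % 2 == b % 2 && b % 2 == c % 2 && c % 2 == d % 2)

/-- the box -/
def F4E_B2 : List ℤ := [-2, -1, 0, 1, 2]

/-- the larger box -/
def F4E_B4 : List ℤ := [-4, -3, -2, -1, 0, 1, 2, 3, 4]

/-- the long roots -/
def F4E_LR : List (ℤ × ℤ × ℤ × ℤ) :=
  [(2, 2, 0, 0), (2, -2, 0, 0), (-2, 2, 0, 0), (-2, -2, 0, 0),
   (2, 0, 2, 0), (2, 0, -2, 0), (-2, 0, 2, 0), (-2, 0, -2, 0),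
   (2, 0, 0, 2), (2, 0, 0, -2), (-2, 0, 0, 2), (-2, 0, 0, -2),
   (0, 2, 2, 0), (0, 2, -2, 0), (0, -2, 2, 0), (0, -2, -2, 0),
   (0, 2, 0, 2), (0, 2, 0, -2), (0, -2, 0, 2), (0, -2, 0, -2),
   (0, 0, 2, 2), (0, 0, 2, -2), (0, 0, -2, 2), (0, 0, -2, -2)]

/-- strongly orthogonal roots are orthogonal and not both short -/
theorem F4E_chk1 :
    (F4E_B2.all fun a0 => F4E_B2.all fun a1 => F4E_B2.all fun a2 => F4E_B2.all fun a3 =>
      !(F4E_P 1 a0 a1 a2 a3) ||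
      (F4E_B2.all fun b0 => F4E_B2.all fun b1 => F4E_B2.all fun b2 => F4E_B2.all fun b3 =>
        !(F4E_P 1 b0 b1 b2 b3) ||
        (a0 == b0 && a1 == b1 && a2 == b2 && a3 == b3) ||
        (a0 + b0 == 0 && a1 + b1 == 0 && a2 + b2 == 0 && a3 + b3 == 0) ||
        F4E_P 1 (a0 + b0) (a1 + b1) (a2 + b2) (a3 + b3) ||
        F4E_P 1 (a0 - b0) (a1 - b1) (a2 - b2) (a3 - b3) ||
        (a0 * b0 + a1 * b1 + a2 * b2 + a3 * b3 == 0 &&
          (F4E_n a0 a1 a2 a3 == 8 || F4E_n b0 b1 b2 b3 == 8)))) = true := by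
  decide +kernel

/-- decomposition for `k = 2` -/
theorem F4E_chk2 :
    (F4E_B4.all fun a0 => F4E_B4.all fun a1 => F4E_B4.all fun a2 => F4E_B4.all fun a3 =>
      !(F4E_P 2 a0 a1 a2 a3) ||
      F4E_LR.any fun b => a0 * b.1 + a1 * b.2.1 + a2 * b.2.2.1 + a3 * b.2.2.2 == 8) = true := by
  decide +kernel

/-- decomposition for `k = 3` -/
theorem F4E_chk3 :
    (F4E_B4.all fun a0 => F4E_B4.all fun a1 => F4E_B4.all fun a2 => F4E_B4.all fun a3 =>
      !(F4E_P 3 a0 a1 a2 a3) ||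
      F4E_LR.any fun b => (a0 * b.1 + a1 * b.2.1 + a2 * b.2.2.1 + a3 * b.2.2.2 == 8) &&
        F4E_LR.any fun c => (a0 * c.1 + a1 * c.2.1 + a2 * c.2.2.1 + a3 * c.2.2.2 == 8) &&
          (b.1 * c.1 + b.2.1 * c.2.1 + b.2.2.1 * c.2.2.1 + b.2.2.2 * c.2.2.2 == 0)) = true := by
  decide +kernel

/-- the long roots are long roots -/
theorem F4E_chk4 :
    (F4E_LR.all fun b => F4E_n b.1 b.2.1 b.2.2.1 b.2.2.2 == 8 &&
      (b.1 % 2 == 0 && b.2.1 % 2 == 0 && b.2.2.1 % 2 == 0 && b.2.2.2 % 2 == 0)) = true := by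
  decide +kernel

/-- the check of an empty edge -/
def F4E_E (k x0 x1 x2 x3 y0 y1 y2 y3 : ℤ) (W : List (ℤ × ℤ × ℤ × ℤ)) : Bool :=
  F4E_P k x0 x1 x2 x3 && F4E_P k y0 y1 y2 y3 && F4E_P k (x0 - y0) (x1 - y1) (x2 - y2) (x3 - y3) &&
  (W.all fun v => F4E_P k v.1 v.2.1 v.2.2.1 v.2.2.2 &&
    F4E_P k (x0 - v.1) (x1 - v.2.1) (x2 - v.2.2.1) (x3 - v.2.2.2) &&
    !(v.1 == y0 && v.2.1 == y1 && v.2.2.1 == y2 && v.2.2.2 == y3)) &&
  (F4E_B4.all fun z0 => F4E_B4.all fun z1 => F4E_B4.all fun z2 => F4E_B4.all fun z3 =>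
    !(F4E_P k z0 z1 z2 z3) || !(F4E_P k (y0 - z0) (y1 - z1) (y2 - z2) (y3 - z3)) ||
    (z0 == x0 && z1 == x1 && z2 == x2 && z3 == x3) ||
    F4E_P k (x0 - z0) (x1 - z1) (x2 - z2) (x3 - z3) ||
    W.any fun v => F4E_P k (z0 - v.1) (z1 - v.2.1) (z2 - v.2.2.1) (z3 - v.2.2.2))

theorem F4E_e1 : F4E_E 1 1 (-1) (-1) (-1) 0 (-2) (-2) 0 [(-1, -1, -1, 1)] = true := by
  decide +kernel

theorem F4E_e2 : F4E_E 2 3 1 (-1) (-1) 2 2 (-2) 2
    [(1, 1, -3, 1), (2, 0, -2, 2), (2, 2, 2, -2)] = true := by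
  decide +kernel

theorem F4E_e3 : F4E_E 3 (-3) 1 1 3 (-4) 2 (-2) 0
    [(-2, 4, 2, 0), (-3, -1, -3, 1), (0, -2, 2, 4), (-3, 3, -1, -1), (-4, -2, 0, 0)] = true := by
  decide +kernel

/-- the roots in the box -/
theorem F4E_chk0 :
    (F4E_B2.all fun a0 => F4E_B2.all fun a1 => F4E_B2.all fun a2 => F4E_B2.all fun a3 =>
      (F4E_n a0 a1 a2 a3 == 4 || (F4E_n a0 a1 a2 a3 == 8 &&
        (a0 % 2 == 0 && a1 % 2 == 0 && a2 % 2 == 0 && a3 % 2 == 0))) == F4E_P 1 a0 a1 a2 a3) =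
      true := by
  decide +kernel

theorem F4E_dp (x y : Vec 4) : dp x y = x 0 * y 0 + x 1 * y 1 + x 2 * y 2 + x 3 * y 3 := by
  simp [dp, Fin.sum_univ_four]

theorem F4E_nn (x : Vec 4) : F4E_n (x 0) (x 1) (x 2) (x 3) = dp x x := (F4E_dp x x).symm

theorem F4E_Piff (k : ℤ) (w : Vec 4) : F4E_P k (w 0) (w 1) (w 2) (w 3) = true ↔
    (dp w w = 8 * k ∨ dp w w = 8 * k - 4) ∧ w 0 % 2 = w 1 % 2 ∧ w 1 % 2 = w 2 % 2 ∧
      w 2 % 2 = w 3 % 2 := by
  unfold F4E_P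
  rw [F4E_nn]
  simp only [Bool.and_eq_true, Bool.or_eq_true, beq_iff_eq]
  tauto

theorem F4E_b2 (w : Vec 4) (h : dp w w ≤ 8) (i : Fin 4) : w i ∈ F4E_B2 := by
  have h0 := F4E_dp w w
  have h1 : -2 ≤ w i ∧ w i ≤ 2 := by
    fin_cases i <;> constructor <;>
      simp only [Fin.zero_eta, Fin.mk_one, Fin.reduceFinMk] <;>
      nlinarith [mul_self_nonneg (w 0), mul_self_nonneg (w 1), mul_self_nonneg (w 2),
        mul_self_nonneg (w 3)]
  obtain ⟨h2, h3⟩ := h1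
  simp only [F4E_B2, List.mem_cons, List.not_mem_nil, or_false]
  omega

theorem F4E_b4 (w : Vec 4) (h : dp w w ≤ 24) (i : Fin 4) : w i ∈ F4E_B4 := by
  have h0 := F4E_dp w w
  have h1 : -4 ≤ w i ∧ w i ≤ 4 := by
    fin_cases i <;> constructor <;>
      simp only [Fin.zero_eta, Fin.mk_one, Fin.reduceFinMk] <;>
      nlinarith [mul_self_nonneg (w 0), mul_self_nonneg (w 1), mul_self_nonneg (w 2),
        mul_self_nonneg (w 3)]
  obtain ⟨h2, h3⟩ := h1
  simp only [F4E_B4, List.mem_cons, List.not_mem_nil, or_false]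
  omega

theorem F4E_R (w : Vec 4) : w ∈ RF4 ↔ F4E_P 1 (w 0) (w 1) (w 2) (w 3) = true := by
  have key : dp w w ≤ 8 → (w ∈ RF4 ↔ F4E_P 1 (w 0) (w 1) (w 2) (w 3) = true) := by
    intro h
    have h1 := F4E_chk0
    simp only [List.all_eq_true] at h1
    have h2 := h1 _ (F4E_b2 w h 0) _ (F4E_b2 w h 1) _ (F4E_b2 w h 2) _ (F4E_b2 w h 3)
    rw [beq_iff_eq] at h2
    rw [← h2, F4E_nn]
    simp only [Bool.and_eq_true, Bool.or_eq_true, beq_iff_eq, RF4,
      Set.mem_ofPred_eq, Fin.forall_fin_succ]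
    constructor
    · rintro (h3 | ⟨h3, h4, h5, h6, h7, _⟩)
      · exact Or.inl h3
      · exact Or.inr ⟨h3, ⟨⟨h4, h5⟩, h6⟩, h7⟩
    · rintro (h3 | ⟨h3, ⟨⟨h4, h5⟩, h6⟩, h7⟩)
      · exact Or.inl h3
      · exact Or.inr ⟨h3, h4, h5, h6, h7, fun i => i.elim0⟩
  constructor
  · intro h
    have h1 : dp w w ≤ 8 := by
      rcases h with h | ⟨h, _⟩ <;> omega
    exact (key h1).1 h
  · intro h
    have h1 : dp w w ≤ 8 := by
      obtain ⟨h2, _⟩ := (F4E_Piff 1 w).1 h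
      omega
    exact (key h1).2 h

theorem F4E_ext (a b : Vec 4) (h0 : a 0 = b 0) (h1 : a 1 = b 1) (h2 : a 2 = b 2)
    (h3 : a 3 = b 3) : a = b := by
  funext i
  fin_cases i
  · exact h0
  · exact h1
  · exact h2
  · exact h3

theorem F4E_orth (a b : Vec 4) (ha : a ∈ RF4) (hb : b ∈ RF4) (h1 : a ≠ b) (h2 : a + b ≠ 0)
    (h3 : a + b ∉ RF4) (h4 : a - b ∉ RF4) : dp a b = 0 ∧ (dp a a = 8 ∨ dp b b = 8) := by
  have na : dp a a ≤ 8 := by
    rcases ha with h | ⟨h, _⟩ <;> omega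
  have nb : dp b b ≤ 8 := by
    rcases hb with h | ⟨h, _⟩ <;> omega
  have h5 := F4E_chk1
  simp only [List.all_eq_true] at h5
  have h6 := h5 _ (F4E_b2 a na 0) _ (F4E_b2 a na 1) _ (F4E_b2 a na 2) _ (F4E_b2 a na 3)
  rw [(F4E_R a).1 ha] at h6
  simp only [Bool.not_true, Bool.false_or, List.all_eq_true] at h6
  have h7 := h6 _ (F4E_b2 b nb 0) _ (F4E_b2 b nb 1) _ (F4E_b2 b nb 2) _ (F4E_b2 b nb 3)
  rw [(F4E_R b).1 hb] at h7
  rw [F4E_R] at h3 h4
  simp only [Pi.add_apply] at h3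
  simp only [Pi.sub_apply] at h4
  rw [Bool.not_eq_true] at h3 h4
  rw [h3, h4, F4E_nn, F4E_nn] at h7
  simp only [Bool.not_true, Bool.false_or, Bool.or_false, Bool.or_eq_true, Bool.and_eq_true,
    beq_iff_eq] at h7
  rcases h7 with (⟨⟨⟨e0, e1⟩, e2⟩, e3⟩ | ⟨⟨⟨e0, e1⟩, e2⟩, e3⟩) | h7
  · exact absurd (F4E_ext a b e0 e1 e2 e3) h1
  · exact absurd (F4E_ext (a + b) 0 e0 e1 e2 e3) h2
  · rw [F4E_dp a b]
    exact h7

theorem F4E_pn (a b : Vec 4) : dp (a + b) (a + b) = dp a a + dp b b + 2 * dp a b := by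
  simp only [F4E_dp, Pi.add_apply]
  ring

theorem F4E_mn (a b : Vec 4) : dp (a - b) (a - b) = dp a a + dp b b - 2 * dp a b := by
  simp only [F4E_dp, Pi.sub_apply]
  ring

theorem F4E_ad (a b c : Vec 4) : dp (a + b) c = dp a c + dp b c := by
  simp only [F4E_dp, Pi.add_apply]
  ring

theorem F4E_sd (a b c : Vec 4) : dp (a - b) c = dp a c - dp b c := by
  simp only [F4E_dp, Pi.sub_apply]
  ring

theorem F4E_cm (a b : Vec 4) : dp a b = dp b a := by
  simp only [F4E_dp]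
  ring

theorem F4E_ge (a : Vec 4) (h : a ∈ RF4) : 4 ≤ dp a a ∧ dp a a ≤ 8 := by
  rcases h with h | ⟨h, _⟩ <;> omega

/-- orthogonality implies strong orthogonality -/
theorem F4E_sos (S : Finset (Vec 4)) (h : ∀ a ∈ S, a ∈ RF4)
    (h2 : ∀ a ∈ S, ∀ b ∈ S, a ≠ b → dp a b = 0 ∧ (dp a a = 8 ∨ dp b b = 8)) : IsSOS RF4 S := by
  refine ⟨h, fun a ha b hb hab => ?_⟩
  obtain ⟨h3, h4⟩ := h2 a ha b hb hab
  have h5 := F4E_ge a (h a ha)
  have h6 := F4E_ge b (h b hb)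
  have h7 : 12 ≤ dp a a + dp b b := by omega
  refine ⟨fun h8 => ?_, fun h8 => ?_, fun h8 => ?_⟩
  · have h9 := F4E_pn a b
    rw [h8] at h9
    have h10 : dp (0 : Vec 4) 0 = 0 := by simp [F4E_dp]
    omega
  · have h9 := F4E_ge _ h8
    rw [F4E_pn] at h9
    omega
  · have h9 := F4E_ge _ h8
    rw [F4E_mn] at h9
    omega

/-- the parity condition -/
def F4E_par (w : Vec 4) : Prop := w 0 % 2 = w 1 % 2 ∧ w 1 % 2 = w 2 % 2 ∧ w 2 % 2 = w 3 % 2

theorem F4E_Rpar (w : Vec 4) (h : w ∈ RF4) : F4E_par w :=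
  ((F4E_Piff 1 w).1 ((F4E_R w).1 h)).2

theorem F4E_apar (a b : Vec 4) (ha : F4E_par a) (hb : F4E_par b) : F4E_par (a + b) := by
  obtain ⟨a1, a2, a3⟩ := ha
  obtain ⟨b1, b2, b3⟩ := hb
  refine ⟨?_, ?_, ?_⟩ <;> simp only [Pi.add_apply] <;> omega

theorem F4E_spar (a b : Vec 4) (ha : F4E_par a) (hb : F4E_par b) : F4E_par (a - b) := by
  obtain ⟨a1, a2, a3⟩ := ha
  obtain ⟨b1, b2, b3⟩ := hb
  refine ⟨?_, ?_, ?_⟩ <;> simp only [Pi.sub_apply] <;> omega

theorem F4E_mk (w : Vec 4) (h : F4E_par w) (h2 : dp w w = 8 ∨ dp w w = 4) : w ∈ RF4 := by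
  rw [F4E_R, F4E_Piff]
  refine ⟨?_, h⟩
  omega

/-- a tuple as a vector -/
def F4E_v (b : ℤ × ℤ × ℤ × ℤ) : Vec 4 := ![b.1, b.2.1, b.2.2.1, b.2.2.2]

theorem F4E_LRm (b : ℤ × ℤ × ℤ × ℤ) (h : b ∈ F4E_LR) :
    dp (F4E_v b) (F4E_v b) = 8 ∧ F4E_par (F4E_v b) := by
  have h1 := F4E_chk4
  rw [List.all_eq_true] at h1
  have h2 := h1 b h
  simp only [Bool.and_eq_true, beq_iff_eq] at h2
  obtain ⟨h3, ⟨⟨h4, h5⟩, h6⟩, h7⟩ := h2
  refine ⟨?_, ?_, ?_, ?_⟩
  · rw [F4E_dp]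
    exact h3
  · show b.1 % 2 = b.2.1 % 2
    omega
  · show b.2.1 % 2 = b.2.2.1 % 2
    omega
  · show b.2.2.1 % 2 = b.2.2.2 % 2
    omega

theorem F4E_iff (k : ℕ) (hk : k = 1 ∨ k = 2 ∨ k = 3) (w : Vec 4) :
    w ∈ sosSums RF4 k ↔ F4E_P k (w 0) (w 1) (w 2) (w 3) = true := by
  classical
  rw [F4E_Piff]
  rcases hk with rfl | rfl | rfl
  · constructor
    · rintro ⟨S, hS, ⟨h1, _⟩, rfl⟩
      obtain ⟨a, rfl⟩ := Finset.card_eq_one.1 hS
      rw [Finset.sum_singleton]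
      have h2 := h1 a (Finset.mem_singleton_self a)
      have h3 := (F4E_Piff 1 a).1 ((F4E_R a).1 h2)
      push_cast
      exact h3
    · intro h
      refine ⟨{w}, Finset.card_singleton w, ?_, Finset.sum_singleton _ _⟩
      have h2 : w ∈ RF4 := by
        rw [F4E_R, F4E_Piff]
        push_cast at h
        exact h
      refine ⟨fun a ha => ?_, fun a ha b hb hab => ?_⟩
      · rw [Finset.mem_singleton.1 ha]
        exact h2
      · rw [Finset.mem_singleton] at ha hb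
        exact absurd (ha.trans hb.symm) hab
  · constructor
    · rintro ⟨S, hS, ⟨h1, h2⟩, rfl⟩
      obtain ⟨a, b, hab, rfl⟩ := Finset.card_eq_two.1 hS
      rw [Finset.sum_pair hab]
      have ha := h1 a (by simp)
      have hb := h1 b (by simp)
      obtain ⟨h3, h4, h5⟩ := h2 a (by simp) b (by simp) hab
      obtain ⟨h6, h7⟩ := F4E_orth a b ha hb hab h3 h4 h5
      refine ⟨?_, F4E_apar a b (F4E_Rpar a ha) (F4E_Rpar b hb)⟩
      rw [F4E_pn, h6]
      have na : dp a a = 8 ∨ dp a a = 4 := by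
        rcases ha with h | ⟨h, _⟩
        · exact Or.inr h
        · exact Or.inl h
      have nb : dp b b = 8 ∨ dp b b = 4 := by
        rcases hb with h | ⟨h, _⟩
        · exact Or.inr h
        · exact Or.inl h
      push_cast
      omega
    · rintro ⟨h1, h2⟩
      push_cast at h1
      have hn : dp w w ≤ 24 := by omega
      have h3 := F4E_chk2
      simp only [List.all_eq_true] at h3
      have h4 := h3 _ (F4E_b4 w hn 0) _ (F4E_b4 w hn 1) _ (F4E_b4 w hn 2) _ (F4E_b4 w hn 3)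
      rw [(F4E_Piff 2 w).2 ⟨by omega, h2⟩] at h4
      simp only [Bool.not_true, Bool.false_or, List.any_eq_true, beq_iff_eq] at h4
      obtain ⟨b, hb, h5⟩ := h4
      obtain ⟨hb1, hb2⟩ := F4E_LRm b hb
      have h6 : dp w (F4E_v b) = 8 := by
        rw [F4E_dp]
        exact h5
      have h7 : dp (w - F4E_v b) (F4E_v b) = 0 := by
        rw [F4E_sd]
        omega
      have h8 : dp (w - F4E_v b) (w - F4E_v b) = dp w w - 8 := by
        rw [F4E_mn]
        omega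
      have h9 : w - F4E_v b ∈ RF4 := F4E_mk _ (F4E_spar w _ h2 hb2) (by omega)
      have h10 : F4E_v b ∈ RF4 := F4E_mk _ hb2 (Or.inl hb1)
      have h11 : w - F4E_v b ≠ F4E_v b := by
        intro h
        rw [h] at h7
        omega
      refine ⟨{w - F4E_v b, F4E_v b}, Finset.card_pair h11, ?_, ?_⟩
      · refine F4E_sos _ ?_ ?_
        · intro a ha
          simp only [Finset.mem_insert, Finset.mem_singleton] at ha
          rcases ha with rfl | rfl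
          · exact h9
          · exact h10
        · intro a ha c hc hac
          simp only [Finset.mem_insert, Finset.mem_singleton] at ha hc
          rcases ha with rfl | rfl <;> rcases hc with rfl | rfl
          · exact absurd rfl hac
          · exact ⟨h7, Or.inr hb1⟩
          · exact ⟨by rw [F4E_cm]; exact h7, Or.inl hb1⟩
          · exact absurd rfl hac
      · rw [Finset.sum_pair h11, sub_add_cancel]
  · constructor
    · rintro ⟨S, hS, ⟨h1, h2⟩, rfl⟩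
      obtain ⟨a, b, c, hab, hac, hbc, rfl⟩ := Finset.card_eq_three.1 hS
      have hsum : ∑ x ∈ ({a, b, c} : Finset (Vec 4)), x = a + b + c := by
        rw [Finset.sum_insert (by simp [hab, hac]), Finset.sum_pair hbc, add_assoc]
      rw [hsum]
      have ha := h1 a (by simp)
      have hb := h1 b (by simp)
      have hc := h1 c (by simp)
      obtain ⟨h3, h4, h5⟩ := h2 a (by simp) b (by simp) hab
      obtain ⟨h6, h7⟩ := F4E_orth a b ha hb hab h3 h4 h5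
      obtain ⟨i3, i4, i5⟩ := h2 a (by simp) c (by simp) hac
      obtain ⟨i6, i7⟩ := F4E_orth a c ha hc hac i3 i4 i5
      obtain ⟨j3, j4, j5⟩ := h2 b (by simp) c (by simp) hbc
      obtain ⟨j6, j7⟩ := F4E_orth b c hb hc hbc j3 j4 j5
      refine ⟨?_, F4E_apar _ c (F4E_apar a b (F4E_Rpar a ha) (F4E_Rpar b hb)) (F4E_Rpar c hc)⟩
      rw [F4E_pn, F4E_pn, F4E_ad, h6, i6, j6]
      have na : dp a a = 8 ∨ dp a a = 4 := by
        rcases ha with h | ⟨h, _⟩
        · exact Or.inr h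
        · exact Or.inl h
      have nb : dp b b = 8 ∨ dp b b = 4 := by
        rcases hb with h | ⟨h, _⟩
        · exact Or.inr h
        · exact Or.inl h
      have nc : dp c c = 8 ∨ dp c c = 4 := by
        rcases hc with h | ⟨h, _⟩
        · exact Or.inr h
        · exact Or.inl h
      push_cast
      omega
    · rintro ⟨h1, h2⟩
      push_cast at h1
      have hn : dp w w ≤ 24 := by omega
      have h3 := F4E_chk3
      simp only [List.all_eq_true] at h3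
      have h4 := h3 _ (F4E_b4 w hn 0) _ (F4E_b4 w hn 1) _ (F4E_b4 w hn 2) _ (F4E_b4 w hn 3)
      rw [(F4E_Piff 3 w).2 ⟨by omega, h2⟩] at h4
      simp only [Bool.not_true, Bool.false_or, List.any_eq_true, Bool.and_eq_true,
        beq_iff_eq] at h4
      obtain ⟨b, hb, h5, c, hc, h6, h7⟩ := h4
      obtain ⟨hb1, hb2⟩ := F4E_LRm b hb
      obtain ⟨hc1, hc2⟩ := F4E_LRm c hc
      have e1 : dp w (F4E_v b) = 8 := by
        rw [F4E_dp]
        exact h5
      have e2 : dp w (F4E_v c) = 8 := by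
        rw [F4E_dp]
        exact h6
      have e3 : dp (F4E_v b) (F4E_v c) = 0 := by
        rw [F4E_dp]
        exact h7
      have e4 : dp (F4E_v c) (F4E_v b) = 0 := by
        rw [F4E_cm]
        exact e3
      have d1 : dp (w - F4E_v b - F4E_v c) (F4E_v b) = 0 := by
        rw [F4E_sd, F4E_sd]
        omega
      have d2 : dp (w - F4E_v b - F4E_v c) (F4E_v c) = 0 := by
        rw [F4E_sd, F4E_sd]
        omega
      have d3 : dp (w - F4E_v b - F4E_v c) (w - F4E_v b - F4E_v c) = dp w w - 16 := by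
        rw [F4E_mn, F4E_mn, F4E_sd]
        omega
      have r1 : w - F4E_v b - F4E_v c ∈ RF4 :=
        F4E_mk _ (F4E_spar _ _ (F4E_spar w _ h2 hb2) hc2) (by omega)
      have r2 : F4E_v b ∈ RF4 := F4E_mk _ hb2 (Or.inl hb1)
      have r3 : F4E_v c ∈ RF4 := F4E_mk _ hc2 (Or.inl hc1)
      have n1 : w - F4E_v b - F4E_v c ≠ F4E_v b := by
        intro h
        rw [h] at d1
        omega
      have n2 : w - F4E_v b - F4E_v c ≠ F4E_v c := by
        intro h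
        rw [h] at d2
        omega
      have n3 : F4E_v b ≠ F4E_v c := by
        intro h
        rw [h] at e3
        omega
      refine ⟨{w - F4E_v b - F4E_v c, F4E_v b, F4E_v c}, Finset.card_eq_three.2
        ⟨_, _, _, n1, n2, n3, rfl⟩, ?_, ?_⟩
      · refine F4E_sos _ ?_ ?_
        · intro a ha
          simp only [Finset.mem_insert, Finset.mem_singleton] at ha
          rcases ha with rfl | rfl | rfl
          · exact r1
          · exact r2
          · exact r3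
        · intro x hx y hy hxy
          simp only [Finset.mem_insert, Finset.mem_singleton] at hx hy
          rcases hx with rfl | rfl | rfl <;> rcases hy with rfl | rfl | rfl
          · exact absurd rfl hxy
          · exact ⟨d1, Or.inr hb1⟩
          · exact ⟨d2, Or.inr hc1⟩
          · exact ⟨by rw [F4E_cm]; exact d1, Or.inl hb1⟩
          · exact absurd rfl hxy
          · exact ⟨e3, Or.inl hb1⟩
          · exact ⟨by rw [F4E_cm]; exact d2, Or.inl hc1⟩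
          · exact ⟨e4, Or.inl hc1⟩
          · exact absurd rfl hxy
      · rw [Finset.sum_insert (by simp [n1, n2]), Finset.sum_pair n3]
        abel

theorem F4E_main (k : ℕ) (hk : k = 1 ∨ k = 2 ∨ k = 3) (x y : Vec 4)
    (W : List (ℤ × ℤ × ℤ × ℤ))
    (h : F4E_E k (x 0) (x 1) (x 2) (x 3) (y 0) (y 1) (y 2) (y 3) W = true) :
    EE (sosSums RF4 k) x y := by
  unfold F4E_E at h
  simp only [Bool.and_eq_true, List.all_eq_true, Bool.or_eq_true, Bool.not_eq_true',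
    List.any_eq_true] at h
  obtain ⟨⟨⟨⟨h1, h2⟩, h3⟩, h4⟩, h5⟩ := h
  refine ⟨(F4E_iff k hk x).2 h1, (F4E_iff k hk y).2 h2, (F4E_iff k hk _).2 h3, ?_⟩
  rw [Set.eq_empty_iff_forall_notMem]
  rintro z ⟨z1, z2, z3, z4, z5⟩
  rw [F4E_iff k hk] at z1 z2 z4
  have hn : dp z z ≤ 24 := by
    have h6 := ((F4E_Piff k z).1 z1).1
    have h7 : k ≤ 3 := by omega
    have h8 : (k : ℤ) ≤ 3 := by exact_mod_cast h7
    omega
  have h6 := h5 _ (F4E_b4 z hn 0) _ (F4E_b4 z hn 1) _ (F4E_b4 z hn 2) _ (F4E_b4 z hn 3)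
  rcases h6 with (((h6 | h6) | h6) | h6) | ⟨v, hv, h6⟩
  · rw [z1] at h6
    exact absurd h6 (by decide)
  · rw [show F4E_P (k : ℤ) (y 0 - z 0) (y 1 - z 1) (y 2 - z 2) (y 3 - z 3) = true from z2] at h6
    exact absurd h6 (by decide)
  · simp only [beq_iff_eq] at h6
    exact z3 (F4E_ext z x h6.1.1.1 h6.1.1.2 h6.1.2 h6.2)
  · exact z4 h6
  · obtain ⟨⟨v1, v2⟩, v3⟩ := h4 v hv
    have w1 : F4E_v v ∈ sosSums RF4 k := (F4E_iff k hk _).2 v1
    have w2 : x - F4E_v v ∈ sosSums RF4 k := (F4E_iff k hk _).2 v2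
    have w3 : z - F4E_v v ∈ sosSums RF4 k := (F4E_iff k hk _).2 h6
    have w4 := z5 _ w1 w2 w3
    rw [← w4] at v3
    simp [F4E_v] at v3

/-- ROW `F4E`: empty edges for `k = 1, 2, 3`. -/
theorem F4E : F4E_stmt :=
  ⟨F4E_main 1 (Or.inl rfl) _ _ _ F4E_e1, F4E_main 2 (Or.inr (Or.inl rfl)) _ _ _ F4E_e2,
    F4E_main 3 (Or.inr (Or.inr rfl)) _ _ _ F4E_e3⟩

end Pool.Agent.SOL
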